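import Pool.Agent.helper93.TV.Spec2

/-! Row OD of helper93's plan TV (MP_29f1cd_al): two class sets with a common point belong to
gauge equivalent F-symbols. -/

namespace Pool.Agent.helper93.TV

theorem OD : OD_stmt := by
  intro hSJ hSG I V _ _ _ _ D X m bp F F' x hx hx'
  obtain ⟨_, J, hJ, hF⟩ := hx
  obtain ⟨_, J', hJ', hF'⟩ := hx'
  obtain ⟨u, hu, hJu⟩ := hSJ I V D X (D.cof X x) m bp J J' hJ hJ'
  refine ⟨u, hu, ?_⟩
  have h := (hSG I V D X (D.cof X x) m bp J u hJ hu).2
  rw [← hJu, hF', hF] at h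
  exact h

end Pool.Agent.helper93.TV
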